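import Pool.Agent.Q263.IV.Def

/-!
# Project IVP, piece ODD: the lines reversed by an isometry
-/

set_option autoImplicit false

open Set MeasureTheory Function Filter Topology
open scoped unitInterval ContDiff

namespace Q263.IV

open Pool.Agent.Y322.IV

section

variable {E : Type} [NormedAddCommGroup E] [InnerProductSpace ℝ E] [FiniteDimensional ℝ E]

/-- The reversed lines. -/
def RevLines (γ : E ≃ₗᵢ[ℝ] E) (e : E) : Set ((ℝ ∙ e)ᗮ × (ℝ ∙ e)ᗮ) :=
  {z | γ (e + (z.2 : E)) = -(e + (z.2 : E)) ∧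
    ∃ a : ℝ, γ ((z.1 : E) + a • (e + (z.2 : E))) = (z.1 : E) + a • (e + (z.2 : E))}

theorem odd_cover {h : E → ℝ} {γ : E ≃ₗᵢ[ℝ] E} {q v : E} (hq : h q = 0) (hv : ‖v‖ = 1)
    (hqv : inner ℝ v (gradient h q) < 0) (hγ : γ v = -v) (hτ : ∃ τ : ℝ, γ (q + τ • v) = q + τ • v)
    {e : E} (he : ‖e‖ = 1) (hue : 0 < inner ℝ e v) : (q, v) ∈ OnLines h e (RevLines γ e) := by
  set α : ℝ := inner ℝ e v with hα
  set w : E := α⁻¹ • v - e with hw
  have hew : e + w = α⁻¹ • v := by rw [hw]; abel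
  have hwK : w ∈ (ℝ ∙ e)ᗮ := by
    rw [Submodule.mem_orthogonal_singleton_iff_inner_right, hw, inner_sub_right,
      inner_smul_right, real_inner_self_eq_norm_sq, he, ← hα]
    field_simp
    ring
  set a : ℝ := inner ℝ e q with ha
  set y : E := q - a • (e + w) with hy
  have hyK : y ∈ (ℝ ∙ e)ᗮ := by
    rw [Submodule.mem_orthogonal_singleton_iff_inner_right, hy, inner_sub_right,
      inner_smul_right, inner_add_right, real_inner_self_eq_norm_sq, he,
      (Submodule.mem_orthogonal_singleton_iff_inner_right).1 hwK, ← ha]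
    ring
  have hnorm : ‖e + w‖ = α⁻¹ := by
    rw [hew, norm_smul, hv, mul_one, norm_inv, Real.norm_of_nonneg hue.le]
  have hstart : q = y + a • (e + w) := by rw [hy]; abel
  have hu0' : v = ‖e + w‖⁻¹ • (e + w) := by
    rw [hnorm, hew, smul_smul, inv_inv, mul_inv_cancel₀ hue.ne', one_smul]
  have hnz : ‖e + w‖ ≠ 0 := by rw [hnorm]; exact (inv_pos.2 hue).ne'
  have hpt : y + (a * ‖e + w‖) • ‖e + w‖⁻¹ • (e + w) = q := by
    rw [smul_smul, mul_assoc, mul_inv_cancel₀ hnz, mul_one, ← hstart]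
  refine ⟨y, ‖e + w‖⁻¹ • (e + w), a * ‖e + w‖,
    ⟨(⟨y, hyK⟩, ⟨w, hwK⟩), ⟨⟨?_, ?_⟩, mem_univ _⟩, rfl⟩, ?_, ?_, ?_⟩
  · simp only
    rw [hew, map_smul, hγ, smul_neg]
  · obtain ⟨τ, hτ⟩ := hτ
    refine ⟨a + τ * α, ?_⟩
    simp only
    have h1 : y + (a + τ * α) • (e + w) = q + τ • v := by
      rw [add_smul, ← add_assoc, ← hstart, hew, smul_smul, mul_assoc, mul_inv_cancel₀ hue.ne',
        mul_one]
    rw [h1, hτ]
  · rw [hpt]; exact hq
  · rw [hpt, ← hu0']; exact hqv.ne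
  · rw [hpt, ← hu0']

section meas
variable [MeasurableSpace E] [BorelSpace E]

theorem null_RevLines {d : ℕ} (hd : 2 ≤ d) (hE : Module.finrank ℝ E = d) (γ : E ≃ₗᵢ[ℝ] E) {e : E}
    (he : ‖e‖ = 1) : μH[((2 * d - 2 : ℕ) : ℝ)] (RevLines γ e) = 0 := by
  have hH := haar_lines hE he
  by_cases hall : ∀ w : (ℝ ∙ e)ᗮ, γ (e + (w : E)) = -(e + (w : E))
  · -- `γ = -1`
    let S : Submodule ℝ ((ℝ ∙ e)ᗮ × (ℝ ∙ e)ᗮ) := LinearMap.ker (LinearMap.fst ℝ _ _)
    have hS : S ≠ ⊤ := by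
      intro h0
      have h1 : Module.finrank ℝ (ℝ ∙ e)ᗮ = 0 := by
        rw [Module.finrank_eq_zero_iff_of_free]
        refine ⟨fun x y => ?_⟩
        have h2 : ∀ x : (ℝ ∙ e)ᗮ, x = 0 := by
          intro x
          have h3 : (x, (0 : (ℝ ∙ e)ᗮ)) ∈ S := by rw [h0]; exact Submodule.mem_top
          exact h3
        rw [h2 x, h2 y]
      have h2 := finrank_lines hE he
      rw [Module.finrank_prod, h1] at h2
      omega
    refine measure_mono_null ?_ (Measure.addHaar_submodule _ S hS)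
    rintro ⟨y, w⟩ ⟨-, a, ha⟩
    change y = 0
    have hγe : γ e = -e := by
      have := hall 0
      simpa using this
    have hγG : ∀ w : (ℝ ∙ e)ᗮ, γ (w : E) = -(w : E) := by
      intro w
      have := hall w
      rw [map_add, hγe, neg_add] at this
      exact add_left_cancel this
    simp only [map_add, map_smul, hγe, hγG] at ha
    have h3 : (y : E) + a • (e + (w : E)) = 0 := by
      have h4 : (2 : ℝ) • ((y : E) + a • (e + (w : E))) = 0 := by
        have h5 : -(y : E) + a • (-e + -(w : E)) = -((y : E) + a • (e + (w : E))) := by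
          rw [neg_add, ← neg_add, smul_neg]
        rw [h5] at ha
        rw [two_smul]
        nth_rewrite 1 [← ha]
        rw [neg_add_cancel]
      exact (smul_eq_zero.1 h4).resolve_left two_ne_zero
    have h5 : a = 0 := by
      have h6 : inner ℝ e ((y : E) + a • (e + (w : E))) = (0 : ℝ) := by rw [h3, inner_zero_right]
      rw [inner_add_right, inner_smul_right, inner_add_right, real_inner_self_eq_norm_sq, he,
        (Submodule.mem_orthogonal_singleton_iff_inner_right).1 y.2,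
        (Submodule.mem_orthogonal_singleton_iff_inner_right).1 w.2] at h6
      linarith
    rw [h5, zero_smul, add_zero] at h3
    exact Subtype.ext h3
  · push Not at hall
    obtain ⟨w₀, hw₀⟩ := hall
    let T : Submodule ℝ E := LinearMap.ker ((γ.toLinearEquiv : E →ₗ[ℝ] E) + LinearMap.id)
    let f : ((ℝ ∙ e)ᗮ × (ℝ ∙ e)ᗮ) →ᵃ[ℝ] E :=
      ((ℝ ∙ e)ᗮ.subtype ∘ₗ LinearMap.snd ℝ _ _).toAffineMap + AffineMap.const ℝ _ e
    let S : AffineSubspace ℝ ((ℝ ∙ e)ᗮ × (ℝ ∙ e)ᗮ) := T.toAffineSubspace.comap f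
    have hf : ∀ z, f z = (z.2 : E) + e := fun z => rfl
    have hmem : ∀ z, z ∈ S ↔ γ (e + (z.2 : E)) = -(e + (z.2 : E)) := by
      intro z
      have h1 : z ∈ S ↔ f z ∈ T := Iff.rfl
      have h2 : f z ∈ T ↔ γ (f z) + f z = 0 := Iff.rfl
      rw [h1, h2, hf, add_comm (z.2 : E) e, add_eq_zero_iff_eq_neg]
    have hS : S ≠ ⊤ := by
      intro h0
      apply hw₀
      have h1 : ((0 : (ℝ ∙ e)ᗮ), w₀) ∈ S := by rw [h0]; exact AffineSubspace.mem_top _ _ _
      exact (hmem _).1 h1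
    refine measure_mono_null ?_ (Measure.addHaar_affineSubspace _ S hS)
    rintro z ⟨hz, -⟩
    exact (hmem z).2 hz

end meas

theorem odd : S_ODD := by
  intro E _ _ _ _ _ d hd hE h γ hh
  have hs : (0 : ℝ) ≤ ((2 * d - 2 : ℕ) : ℝ) := Nat.cast_nonneg _
  refine measure_mono_null (t := ⋃ i, OnLines h (dirs E i) (RevLines γ (dirs E i))) ?_
    (measure_iUnion_null fun i => null_OnLines hh hs (dirs_norm i) _
      (null_RevLines hd hE γ (dirs_norm i)))
  rintro ⟨q, v⟩ ⟨h1, h2, h3, h4, h5⟩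
  simp only at h1 h2 h3 h4 h5
  have hv : v ≠ 0 := by
    rintro rfl
    rw [norm_zero] at h2
    exact zero_ne_one h2
  obtain ⟨i, hi⟩ := exists_dir hv
  exact mem_iUnion.2 ⟨i, odd_cover h1 h2 h3 h4 h5 (dirs_norm i) hi⟩

end

end Q263.IV
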