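import Pool.Agent.Q263.IV.Def

/-!
# Project IVP, piece SERIES: the perturbed function for locally uniformly summable series
-/

set_option autoImplicit false

open Set MeasureTheory Function Filter Topology
open scoped unitInterval ContDiff

namespace Q263.IV

open Pool.Agent.Y322.IV

section

variable {E : Type} [NormedAddCommGroup E] [InnerProductSpace ℝ E] [FiniteDimensional ℝ E]

theorem series_abs_I (r : I) : |(r : ℝ)| ≤ 1 := by
  rw [abs_of_nonneg r.2.1]
  exact r.2.2

/-- The global version. -/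
theorem series_global {g : ℕ → E → ℝ} (hg : ∀ j, ContDiff ℝ 2 (g j)) {v : ℕ → ℝ}
    (hv : Summable v) (hvb : ∀ j k : ℕ, k ≤ 2 → ∀ x, ‖iteratedFDeriv ℝ k (g j) x‖ ≤ v j)
    {f : E → ℝ} (hf : ContDiff ℝ 2 f) :
    (∀ t : ℕ → I, ContDiff ℝ 2 (pert f g t)) ∧
      Continuous (fun z : (ℕ → I) × E => pert f g z.1 z.2) ∧
      Continuous (fun z : (ℕ → I) × E => gradient (pert f g z.1) z.2) := by
  have hv0 : ∀ j x, |g j x| ≤ v j := by
    intro j x
    have := hvb j 0 (by norm_num) x
    rwa [norm_iteratedFDeriv_zero] at this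
  have hv1 : ∀ j x, ‖fderiv ℝ (g j) x‖ ≤ v j := by
    intro j x
    have := hvb j 1 (by norm_num) x
    rwa [norm_iteratedFDeriv_one] at this
  have hsum : ∀ (t : ℕ → I) (x : E), Summable fun j => (t j : ℝ) * g j x := by
    intro t x
    refine Summable.of_norm_bounded hv fun j => ?_
    rw [norm_mul]
    calc ‖(t j : ℝ)‖ * ‖g j x‖ ≤ 1 * v j :=
          mul_le_mul (series_abs_I _) (hv0 j x) (norm_nonneg _) zero_le_one
      _ = v j := one_mul _
  have hsm : ∀ t : ℕ → I, ContDiff ℝ 2 fun x => ∑' j, (t j : ℝ) * g j x := by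
    intro t
    refine contDiff_tsum (N := 2) (v := fun _ => v) (fun j => contDiff_const.mul (hg j))
      (fun k _ => hv) ?_
    intro k j x hk
    have hk' : k ≤ 2 := by exact_mod_cast hk
    have h1 : iteratedFDeriv ℝ k (fun x => (t j : ℝ) * g j x) x =
        (t j : ℝ) • iteratedFDeriv ℝ k (g j) x :=
      iteratedFDeriv_const_smul_apply' (a := (t j : ℝ))
        (((hg j).of_le (by exact_mod_cast hk')).contDiffAt)
    rw [h1, norm_smul]
    calc ‖(t j : ℝ)‖ * ‖iteratedFDeriv ℝ k (g j) x‖ ≤ 1 * v j :=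
          mul_le_mul (series_abs_I _) (hvb j k hk' x) (norm_nonneg _) zero_le_one
      _ = v j := one_mul _
  have htc : ∀ j, Continuous fun z : (ℕ → I) × E => (z.1 j : ℝ) := fun j =>
    continuous_subtype_val.comp ((continuous_apply j).comp continuous_fst)
  refine ⟨fun t => hf.add (hsm t), ?_, ?_⟩
  · refine (hf.continuous.comp continuous_snd).add ?_
    refine continuous_tsum (u := v) (fun j => ?_) hv fun j z => ?_
    · exact (htc j).mul ((hg j).continuous.comp continuous_snd)
    · rw [norm_mul]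
      calc ‖(z.1 j : ℝ)‖ * ‖g j z.2‖ ≤ 1 * v j :=
            mul_le_mul (series_abs_I _) (hv0 j z.2) (norm_nonneg _) zero_le_one
        _ = v j := one_mul _
  · have hfd : ∀ (t : ℕ → I) (x : E), fderiv ℝ (pert f g t) x =
        fderiv ℝ f x + ∑' j, (t j : ℝ) • fderiv ℝ (g j) x := by
      intro t x
      have h1 : pert f g t = f + fun x => ∑' j, (t j : ℝ) * g j x := rfl
      rw [h1, fderiv_add (hf.differentiable (by simp)).differentiableAt
        ((hsm t).differentiable (by simp)).differentiableAt]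
      congr 1
      have h2 : ∀ (j : ℕ) (x : E), fderiv ℝ (fun x => (t j : ℝ) * g j x) x =
          (t j : ℝ) • fderiv ℝ (g j) x := fun j x =>
        fderiv_const_mul ((hg j).differentiable (by simp)).differentiableAt _
      have h3 := fderiv_tsum (𝕜 := ℝ) (f := fun j x => (t j : ℝ) * g j x) (u := v) (x₀ := x) hv
        (fun j => ((contDiff_const.mul (hg j)).differentiable (by simp))) (fun j y => by
          rw [h2, norm_smul]
          calc ‖(t j : ℝ)‖ * ‖fderiv ℝ (g j) y‖ ≤ 1 * v j :=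
                mul_le_mul (series_abs_I _) (hv1 j y) (norm_nonneg _) zero_le_one
            _ = v j := one_mul _) (hsum t x)
      rw [h3]
      exact tsum_congr fun j => h2 j x
    have hcd : Continuous fun z : (ℕ → I) × E => fderiv ℝ (pert f g z.1) z.2 := by
      simp only [hfd]
      refine ((hf.continuous_fderiv (by simp)).comp continuous_snd).add ?_
      refine continuous_tsum (u := v) (fun j => ?_) hv fun j z => ?_
      · exact (htc j).smul (((hg j).continuous_fderiv (by simp)).comp continuous_snd)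
      · rw [norm_smul]
        calc ‖(z.1 j : ℝ)‖ * ‖fderiv ℝ (g j) z.2‖ ≤ 1 * v j :=
              mul_le_mul (series_abs_I _) (hv1 j z.2) (norm_nonneg _) zero_le_one
          _ = v j := one_mul _
    exact (InnerProductSpace.toDual ℝ E).symm.continuous.comp hcd

/-- Cut off: on each ball the series agrees with a globally summable one. -/
theorem series_cut {g : ℕ → E → ℝ} (hg : ∀ j, ContDiff ℝ 2 (g j))
    (hb : ∀ R : ℝ, ∃ v : ℕ → ℝ, Summable v ∧ ∀ j : ℕ, ∀ k ≤ 2, ∀ x, ‖x‖ ≤ R →
      ‖iteratedFDeriv ℝ k (g j) x‖ ≤ v j) (R : ℝ) (hR : 0 < R) :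
    ∃ (g' : ℕ → E → ℝ) (v : ℕ → ℝ), (∀ j, ContDiff ℝ 2 (g' j)) ∧ Summable v ∧
      (∀ j k : ℕ, k ≤ 2 → ∀ x, ‖iteratedFDeriv ℝ k (g' j) x‖ ≤ v j) ∧
      ∀ j x, ‖x‖ < R → g' j x = g j x := by
  let χ : ContDiffBump (0 : E) := ⟨R, R + 1, hR, by linarith⟩
  have hχ : ContDiff ℝ ∞ (χ : E → ℝ) := χ.contDiff
  have hχ2 : ContDiff ℝ 2 (χ : E → ℝ) := χ.contDiff
  have hχc : HasCompactSupport (χ : E → ℝ) := χ.hasCompactSupport
  obtain ⟨v, hv, hvb⟩ := hb (R + 1)
  have h1 : ∀ k : ℕ, ∃ C : ℝ, ∀ x, ‖iteratedFDeriv ℝ k (χ : E → ℝ) x‖ ≤ C := by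
    intro k
    exact (hχc.iteratedFDeriv (𝕜 := ℝ) k).exists_bound_of_continuous
      (hχ.continuous_iteratedFDeriv (by exact_mod_cast le_top))
  choose C hC using h1
  have hC0 : ∀ k, 0 ≤ C k := fun k => (norm_nonneg _).trans (hC k 0)
  have hv0 : ∀ j, 0 ≤ v j := fun j =>
    (norm_nonneg _).trans (hvb j 0 (by norm_num) 0 (by rw [norm_zero]; linarith))
  let K : ℝ := ∑ k ∈ Finset.range 3, ∑ i ∈ Finset.range (k + 1), (k.choose i : ℝ) * C i
  have hK : ∀ k ≤ 2, ∑ i ∈ Finset.range (k + 1), (k.choose i : ℝ) * C i ≤ K := by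
    intro k hk
    exact Finset.single_le_sum (f := fun k => ∑ i ∈ Finset.range (k + 1), (k.choose i : ℝ) * C i)
      (fun k _ => Finset.sum_nonneg fun i _ => mul_nonneg (Nat.cast_nonneg _) (hC0 i))
      (Finset.mem_range.2 (by omega))
  have hK0 : 0 ≤ K := Finset.sum_nonneg fun k _ =>
    Finset.sum_nonneg fun i _ => mul_nonneg (Nat.cast_nonneg _) (hC0 i)
  refine ⟨fun j x => χ x * g j x, fun j => K * v j, fun j => hχ2.mul (hg j), hv.mul_left K,
    ?_, ?_⟩
  · intro j k hk x
    by_cases hx : ‖x‖ ≤ R + 1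
    · calc ‖iteratedFDeriv ℝ k (fun x => χ x * g j x) x‖
          ≤ ∑ i ∈ Finset.range (k + 1), (k.choose i : ℝ) * ‖iteratedFDeriv ℝ i χ x‖ *
              ‖iteratedFDeriv ℝ (k - i) (g j) x‖ :=
            norm_iteratedFDeriv_mul_le hχ2 (hg j) x (by exact_mod_cast hk)
        _ ≤ ∑ i ∈ Finset.range (k + 1), (k.choose i : ℝ) * C i * v j := by
            refine Finset.sum_le_sum fun i hi => ?_
            refine mul_le_mul (mul_le_mul_of_nonneg_left (hC i x) (Nat.cast_nonneg _))
              (hvb j (k - i) (by omega) x hx) (norm_nonneg _)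
              (mul_nonneg (Nat.cast_nonneg _) (hC0 i))
        _ = (∑ i ∈ Finset.range (k + 1), (k.choose i : ℝ) * C i) * v j := by
            rw [Finset.sum_mul]
        _ ≤ K * v j := mul_le_mul_of_nonneg_right (hK k hk) (hv0 j)
    · have h2 : (fun x => χ x * g j x) =ᶠ[𝓝 x] fun _ => (0 : ℝ) := by
        have h3 : ∀ᶠ y in 𝓝 x, R + 1 < ‖y‖ :=
          (continuous_norm.tendsto x).eventually (lt_mem_nhds (not_le.1 hx))
        filter_upwards [h3] with y hy
        have : χ y = 0 := by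
          refine χ.zero_of_le_dist ?_
          rw [dist_zero_right]
          exact hy.le
        rw [this, zero_mul]
      have h4 : iteratedFDeriv ℝ k (fun x => χ x * g j x) x = 0 := by
        rw [(h2.iteratedFDeriv ℝ k).eq_of_nhds]
        have h5 : (iteratedFDeriv ℝ k fun _ : E => (0 : ℝ)) = 0 := iteratedFDeriv_fun_zero
        rw [h5]
        rfl
      rw [h4, norm_zero]
      exact mul_nonneg hK0 (hv0 j)
  · intro j x hx
    have : χ x = 1 := by
      refine χ.one_of_mem_closedBall ?_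
      rw [mem_closedBall_zero_iff]
      exact hx.le
    simp only [this, one_mul]

theorem series : S_SERIES := by
  intro E _ _ _ g hg hb f hf
  have hloc : ∀ x₀ : E, ∃ g' : ℕ → E → ℝ,
      ((∀ t : ℕ → I, ContDiff ℝ 2 (pert f g' t)) ∧
      Continuous (fun z : (ℕ → I) × E => pert f g' z.1 z.2) ∧
      Continuous (fun z : (ℕ → I) × E => gradient (pert f g' z.1) z.2)) ∧
      ∀ᶠ x in 𝓝 x₀, ∀ t, pert f g t x = pert f g' t x := by
    intro x₀
    obtain ⟨g', v, h1, h2, h3, h4⟩ := series_cut hg hb (‖x₀‖ + 1) (by positivity)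
    refine ⟨g', series_global h1 h2 h3 hf, ?_⟩
    have h5 : ∀ᶠ y in 𝓝 x₀, ‖y‖ < ‖x₀‖ + 1 :=
      (continuous_norm.tendsto x₀).eventually (gt_mem_nhds (by linarith))
    filter_upwards [h5] with y hy t
    unfold pert
    congr 1
    exact tsum_congr fun j => by rw [h4 j y hy]
  refine ⟨fun t => ?_, ?_, ?_, ?_⟩
  · rw [contDiff_iff_contDiffAt]
    intro x₀
    obtain ⟨g', ⟨h1, -, -⟩, h4⟩ := hloc x₀
    exact (h1 t).contDiffAt.congr_of_eventuallyEq (h4.mono fun x hx => hx t)
  · rw [continuous_iff_continuousAt]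
    rintro ⟨t₀, x₀⟩
    obtain ⟨g', ⟨-, h2, -⟩, h4⟩ := hloc x₀
    refine h2.continuousAt.congr ?_
    have h5 : ∀ᶠ z : (ℕ → I) × E in 𝓝 (t₀, x₀), ∀ t, pert f g t z.2 = pert f g' t z.2 :=
      (continuous_snd.tendsto (t₀, x₀)).eventually h4
    filter_upwards [h5] with z hz
    exact (hz z.1).symm
  · rw [continuous_iff_continuousAt]
    rintro ⟨t₀, x₀⟩
    obtain ⟨g', ⟨-, -, h3⟩, h4⟩ := hloc x₀
    refine h3.continuousAt.congr ?_
    have h5 : ∀ᶠ z : (ℕ → I) × E in 𝓝 (t₀, x₀), ∀ᶠ y in 𝓝 z.2, ∀ t,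
        pert f g t y = pert f g' t y :=
      (continuous_snd.tendsto (t₀, x₀)).eventually (eventually_eventually_nhds.2 h4)
    filter_upwards [h5] with z hz
    have h6 : pert f g' z.1 =ᶠ[𝓝 z.2] pert f g z.1 := by
      filter_upwards [hz] with y hy
      exact (hy z.1).symm
    exact h6.gradient_eq
  · intro J t s x
    obtain ⟨v, hv, hvb⟩ := hb ‖x‖
    have hv0 : ∀ j, |g j x| ≤ v j := by
      intro j
      have := hvb j 0 (by norm_num) x le_rfl
      rwa [norm_iteratedFDeriv_zero] at this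
    have hsum : ∀ (t : ℕ → I), Summable fun j => (t j : ℝ) * g j x := by
      intro t
      refine Summable.of_norm_bounded hv fun j => ?_
      rw [norm_mul]
      calc ‖(t j : ℝ)‖ * ‖g j x‖ ≤ 1 * v j :=
            mul_le_mul (series_abs_I _) (hv0 j) (norm_nonneg _) zero_le_one
        _ = v j := one_mul _
    unfold pert
    rw [← (hsum (repl J t s)).sum_add_tsum_nat_add J, ← (hsum t).sum_add_tsum_nat_add J]
    have h1 : ∀ i, ((repl J t s (i + J) : I) : ℝ) * g (i + J) x = (t (i + J) : ℝ) * g (i + J) x := by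
      intro i
      have : repl J t s (i + J) = t (i + J) := by
        unfold repl
        rw [dif_neg (by omega)]
      rw [this]
    rw [tsum_congr h1]
    have h2 : ∑ i ∈ Finset.range J, ((repl J t s i : I) : ℝ) * g i x =
        ∑ i ∈ Finset.range J, (t i : ℝ) * g i x + ∑ i : Fin J, ((s i : ℝ) - (t i : ℝ)) * g i x := by
      rw [Finset.sum_range, Finset.sum_range, ← Finset.sum_add_distrib]
      refine Finset.sum_congr rfl fun i _ => ?_
      have : repl J t s i = s i := by
        unfold repl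
        rw [dif_pos i.2]
      rw [this]
      ring
    rw [h2]
    ring

end

end Q263.IV
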